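import Pool.Agent.helper97.KR.Spec

/-!
# Project KR, row LB1: labels for the slots
-/

set_option autoImplicit false

namespace Pool.Agent.helper97.KR

open Finset Classical

noncomputable section

/-- Gluing bijections of the fibres. -/
lemma LB1_glue {α β γ : Type} [DecidableEq γ] [Nonempty β] (A : Finset α) (B : Finset β) (g : α → γ) (g' : β → γ)
    (hcard : ∀ z, (A.filter fun a => g a = z).card = (B.filter fun b => g' b = z).card) :
    ∃ φ : α → β, (∀ a ∈ A, φ a ∈ B ∧ g' (φ a) = g a) ∧
      (∀ a ∈ A, ∀ a' ∈ A, φ a = φ a' → a = a') ∧ ∀ b ∈ B, ∃ a ∈ A, φ a = b := by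
  let ez : ∀ z, {a // a ∈ A.filter fun a => g a = z} ≃ {b // b ∈ B.filter fun b => g' b = z} :=
    fun z => Finset.equivOfCardEq (hcard z)
  have hm : ∀ z a, a ∈ A → g a = z → a ∈ A.filter fun a => g a = z := by
    intro z a ha hz
    exact mem_filter.mpr ⟨ha, hz⟩
  let φ : α → β := fun a => if ha : a ∈ A then (ez (g a) ⟨a, hm (g a) a ha rfl⟩).1
    else Classical.arbitrary β
  have key : ∀ z a (ha : a ∈ A) (hz : g a = z), φ a = (ez z ⟨a, hm z a ha hz⟩).1 := by
    intro z a ha hz
    subst hz
    simp only [φ, dif_pos ha]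
  have h1 : ∀ a ∈ A, φ a ∈ B ∧ g' (φ a) = g a := by
    intro a ha
    rw [key (g a) a ha rfl]
    have := (ez (g a) ⟨a, hm (g a) a ha rfl⟩).2
    rw [mem_filter] at this
    exact this
  refine ⟨φ, h1, ?_, ?_⟩
  · intro a ha a' ha' he
    have hz : g a' = g a := by rw [← (h1 a ha).2, ← (h1 a' ha').2, he]
    rw [key (g a) a ha rfl, key (g a) a' ha' hz] at he
    have h2 := (ez (g a)).injective (Subtype.ext he)
    exact congrArg Subtype.val h2
  · intro b hb
    have hb' : b ∈ B.filter fun b => g' b = g' b := mem_filter.mpr ⟨hb, rfl⟩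
    have hb2 : b ∈ B.filter fun b1 => g' b1 = g' b := mem_filter.mpr ⟨hb, rfl⟩
    have h3 := ((ez (g' b)).symm ⟨b, hb2⟩).2
    rw [mem_filter] at h3
    refine ⟨((ez (g' b)).symm ⟨b, hb2⟩).1, h3.1, ?_⟩
    rw [key (g' b) _ h3.1 h3.2]
    exact congrArg Subtype.val ((ez (g' b)).apply_symm_apply ⟨b, hb2⟩)

lemma LB1_cnt {V : Type} (S' : Finset V) (H : V → ZMod 3 → V) (a b : V) (hab : a ≠ b) :
    ((S' ×ˢ (univ : Finset (ZMod 3))).filter fun p => s(p.1, H p.1 p.2) = s(a, b)).card
      = (if a ∈ S' then (univ.filter fun k => H a k = b).card else 0)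
        + (if b ∈ S' then (univ.filter fun k => H b k = a).card else 0) := by
  rw [card_filter, sum_product]
  have h1 : ∀ v k, (if s(v, H v k) = s(a, b) then 1 else 0)
      = (if v = a then (if H v k = b then 1 else 0) else 0)
        + (if v = b then (if H v k = a then 1 else 0) else 0) := by
    intro v k
    by_cases hva : v = a
    · subst hva
      by_cases hb : H v k = b
      · simp [Sym2.eq_iff, hb, hab]
      · simp [Sym2.eq_iff, hb, hab]
    · by_cases hvb : v = b
      · subst hvb
        by_cases hb : H v k = a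
        · simp [Sym2.eq_iff, hb, hva]
        · simp [Sym2.eq_iff, hb, hva]
      · simp [Sym2.eq_iff, hva, hvb]
  simp only [h1]
  simp only [sum_add_distrib]
  have h2 : ∀ c d : V, ∑ v ∈ S', ∑ k : ZMod 3, (if v = c then (if H v k = d then 1 else 0) else 0)
      = if c ∈ S' then (univ.filter fun k => H c k = d).card else 0 := by
    intro c d
    have h3 : ∀ v, ∑ k : ZMod 3, (if v = c then (if H v k = d then 1 else 0) else 0)
        = if v = c then (univ.filter fun k => H c k = d).card else 0 := by
      intro v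
      by_cases hv : v = c
      · subst hv
        simp only [if_true, card_filter]
      · simp [hv]
    simp only [h3]
    rw [sum_ite_eq']
  rw [h2, h2]

theorem LB1_fix (V E : Type) (ends : E → Sym2 V) (S : Finset V) (F : Finset E) (x : V)
    (h : V → ZMod 3 → Option V) (hx : x ∈ S) (h2 : 2 ≤ S.card)
    (hS : ∀ e ∈ F, ∀ v ∈ ends e, v ∈ S) (hd : ∀ e ∈ F, ¬ (ends e).IsDiag)
    (hh : ∀ v ∈ S.erase x, ∀ k u, h v k = some u → u ∈ S.erase x ∧ u ≠ v)
    (hn : ∀ v ∈ S.erase x, (univ.filter fun k => h v k = none).card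
      = (F.filter fun e => ends e = s(x, v)).card)
    (hs : ∀ u ∈ S.erase x, ∀ v ∈ S.erase x, u ≠ v →
      (univ.filter fun k => h u k = some v).card + (univ.filter fun k => h v k = some u).card =
        (F.filter fun e => ends e = s(u, v)).card) :
    ∃ lam : V → ZMod 3 → E, (∀ v ∈ S.erase x, ∀ k, lam v k ∈ F ∧ ends (lam v k) = s(v, (h v k).getD x)) ∧
      (∀ v ∈ S.erase x, ∀ v' ∈ S.erase x, ∀ k k', lam v k = lam v' k' → v = v' ∧ k = k') ∧
      ∀ e ∈ F, ∃ v ∈ S.erase x, ∃ k, lam v k = e := by
  have hxS : x ∉ S.erase x := notMem_erase x S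
  -- the values of the slots
  have hH : ∀ v ∈ S.erase x, ∀ w, (univ.filter fun k : ZMod 3 => (h v k).getD x = w).card
      = if w = x then (univ.filter fun k => h v k = none).card
        else if w ∈ S.erase x then (univ.filter fun k => h v k = some w).card else 0 := by
    intro v hv w
    by_cases hw : w = x
    · rw [if_pos hw]
      congr 1
      refine filter_congr fun k _ => ?_
      subst hw
      rcases hk : h v k with _ | u
      · simp
      · have := (hh v hv k u hk).1
        have hne : u ≠ w := fun he => hxS (he ▸ this)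
        simp [hne]
    · rw [if_neg hw]
      by_cases hw2 : w ∈ S.erase x
      · rw [if_pos hw2]
        congr 1
        refine filter_congr fun k _ => ?_
        rcases hk : h v k with _ | u
        · have : x ≠ w := fun he => hw he.symm
          simp [this]
        · simp
      · rw [if_neg hw2, card_eq_zero, filter_eq_empty_iff]
        intro k _ he
        rcases hk : h v k with _ | u
        · rw [hk] at he
          exact hw he.symm
        · rw [hk] at he
          have hu := (hh v hv k u hk).1
          have he' : u = w := he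
          exact hw2 (he' ▸ hu)
  have hcard : ∀ z : Sym2 V, (((S.erase x) ×ˢ (univ : Finset (ZMod 3))).filter
      fun p : V × ZMod 3 => s(p.1, (h p.1 p.2).getD x) = z).card
      = (F.filter fun e => ends e = z).card := by
    intro z
    induction z using Sym2.ind with
    | _ a b =>
    by_cases hab : a = b
    · subst hab
      have e1 : (F.filter fun e => ends e = s(a, a)) = ∅ := by
        rw [filter_eq_empty_iff]
        intro e he h0
        exact hd e he (by rw [h0]; exact rfl)
      rw [e1, card_empty, card_eq_zero, filter_eq_empty_iff]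
      rintro ⟨v, k⟩ hp he
      rw [mem_product] at hp
      have hv := hp.1
      simp only at hv he
      rw [Sym2.eq_iff] at he
      have h3 : (h v k).getD x = v := by
        rcases he with ⟨h4, h5⟩ | ⟨h4, h5⟩
        · rw [h5, h4]
        · rw [h5, h4]
      rcases hk : h v k with _ | u
      · rw [hk] at h3
        have h3' : x = v := h3
        exact hxS (h3' ▸ hv)
      · rw [hk] at h3
        exact (hh v hv k u hk).2 h3
    · rw [LB1_cnt (S.erase x) (fun v k => (h v k).getD x) a b hab]
      have e0 : ∀ c, c ∉ S → c = a ∨ c = b → (F.filter fun e => ends e = s(a, b)).card = 0 := by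
        intro c hc hcab
        rw [card_eq_zero, filter_eq_empty_iff]
        intro e he h0
        refine hc (hS e he c ?_)
        rw [h0, Sym2.mem_iff]
        exact hcab
      by_cases hax : a = x
      · have hbx : b ≠ x := fun hb => hab (hax.trans hb.symm)
        subst hax
        rw [if_neg hxS, zero_add]
        by_cases hb : b ∈ S.erase a
        · rw [if_pos hb, hH b hb a, if_pos rfl, hn b hb]
        · rw [if_neg hb, e0 b (fun h5 => hb (mem_erase.mpr ⟨hbx, h5⟩)) (Or.inr rfl)]
      · by_cases hbx : b = x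
        · subst hbx
          rw [if_neg hxS, add_zero]
          by_cases ha : a ∈ S.erase b
          · rw [if_pos ha, hH a ha b, if_pos rfl, hn a ha, Sym2.eq_swap]
          · rw [if_neg ha, e0 a (fun h5 => ha (mem_erase.mpr ⟨hax, h5⟩)) (Or.inl rfl)]
        · by_cases ha : a ∈ S.erase x
          · by_cases hb : b ∈ S.erase x
            · rw [if_pos ha, if_pos hb, hH a ha b, hH b hb a, if_neg hbx, if_neg hax, if_pos hb,
                if_pos ha, hs a ha b hb hab]
            · rw [if_pos ha, if_neg hb, hH a ha b, if_neg hbx, if_neg hb,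
                e0 b (fun h5 => hb (mem_erase.mpr ⟨hbx, h5⟩)) (Or.inr rfl)]
          · by_cases hb : b ∈ S.erase x
            · rw [if_neg ha, if_pos hb, hH b hb a, if_neg hax, if_neg ha,
                e0 a (fun h5 => ha (mem_erase.mpr ⟨hax, h5⟩)) (Or.inl rfl)]
            · rw [if_neg ha, if_neg hb, e0 a (fun h5 => ha (mem_erase.mpr ⟨hax, h5⟩)) (Or.inl rfl)]
  -- E is not empty
  have hne : Nonempty E := by
    have h5 : 0 < (S.erase x).card := by
      rw [card_erase_of_mem hx]
      omega
    obtain ⟨v, hv⟩ := card_pos.mp h5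
    have h6 := hcard (s(v, (h v 0).getD x))
    have h7 : (v, (0 : ZMod 3)) ∈ ((S.erase x) ×ˢ (univ : Finset (ZMod 3))).filter
        fun p : V × ZMod 3 => s(p.1, (h p.1 p.2).getD x) = s(v, (h v 0).getD x) := by
      rw [mem_filter, mem_product]
      exact ⟨⟨hv, mem_univ _⟩, rfl⟩
    have h8 : 0 < (F.filter fun e => ends e = s(v, (h v 0).getD x)).card := by
      rw [← h6]
      exact card_pos.mpr ⟨_, h7⟩
    obtain ⟨e, _⟩ := card_pos.mp h8
    exact ⟨e⟩
  obtain ⟨φ, p1, p2, p3⟩ := LB1_glue ((S.erase x) ×ˢ (univ : Finset (ZMod 3))) F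
    (fun p : V × ZMod 3 => s(p.1, (h p.1 p.2).getD x)) ends hcard
  refine ⟨fun v k => φ (v, k), ?_, ?_, ?_⟩
  · intro v hv k
    exact p1 (v, k) (mem_product.mpr ⟨hv, mem_univ _⟩)
  · intro v hv v' hv' k k' he
    have h9 := p2 (v, k) (mem_product.mpr ⟨hv, mem_univ _⟩) (v', k')
      (mem_product.mpr ⟨hv', mem_univ _⟩) he
    exact ⟨congrArg Prod.fst h9, congrArg Prod.snd h9⟩
  · intro e he
    obtain ⟨⟨v, k⟩, h10, h11⟩ := p3 e he
    exact ⟨v, (mem_product.mp h10).1, k, h11⟩

end

end Pool.Agent.helper97.KR
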